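import Pool.Agent.helper78.HFN.Spec

/-!
# Row hfn:ASG (MP_3221a1_ag): every point is assigned to the first curve which contains it
-/

set_option autoImplicit false

open Polynomial Module

namespace Pool.Agent.HFN

noncomputable section

theorem ASG_sum (f : AA → ℕ) (L : List AA) : ∑ t : Fin L.length, f (L.get t) = (L.map f).sum := by
  induction L with
  | nil => simp
  | cons E L ih =>
    rw [List.map_cons, List.sum_cons, ← ih]
    exact Fin.sum_univ_succ _

open Classical in
theorem ASG_nn (hBZT : BZT_stmt) (Z : Finset (ℂ × ℂ)) (E E' : AA) (hE : Irreducible E) (hE' : Irreducible E')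
    (hne : ¬ Associated E E') :
    nn Z E' ≤ nn (Z.filter fun z => ¬ ev z E = 0) E' + (dX E * dY E' + dY E * dX E') := by
  have hnd : ¬ E ∣ E' := fun h => hne (hE.associated_of_dvd hE' h)
  have h1 := hBZT E E' hE hnd (dX E') (dY E') ⟨le_rfl, le_rfl⟩ ∅
    (Z.filter fun z => ev z E = 0 ∧ ev z E' = 0) (Finset.disjoint_empty_left _)
    (fun z hz => absurd hz (Finset.notMem_empty z)) (fun z hz => (Finset.mem_filter.1 hz).2)
  rw [Finset.card_empty, mul_zero, zero_add] at h1
  have h2 : nn Z E' = nn (Z.filter fun z => ¬ ev z E = 0) E' +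
      (Z.filter fun z => ev z E = 0 ∧ ev z E' = 0).card := by
    unfold nn
    rw [← Finset.card_filter_add_card_filter_not (s := Z.filter fun z => ev z E' = 0)
      (fun z => ¬ ev z E = 0)]
    congr 1
    · congr 1
      ext z
      simp only [Finset.mem_filter]
      tauto
    · congr 1
      ext z
      simp only [Finset.mem_filter]
      tauto
  rw [h2]
  refine Nat.add_le_add_left (h1.trans (le_of_eq ?_)) _
  unfold ip
  ring

theorem ASG (hBZT : BZT_stmt) : ASG_stmt := by
  classical
  intro L
  induction L with
  | nil =>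
    intro _ Z
    refine ⟨fun _ => 0, fun t => t.elim0, ?_, ?_⟩
    · simp
    · simp
  | cons E L ih =>
    intro hC Z
    obtain ⟨hirr, hpw⟩ := hC
    rw [List.pairwise_cons] at hpw
    have hE : Irreducible E := hirr E List.mem_cons_self
    obtain ⟨n, hn1, hn2, hn3⟩ := ih ⟨fun C hC => hirr C (List.mem_cons_of_mem _ hC), hpw.2⟩
      (Z.filter fun z => ¬ ev z E = 0)
    refine ⟨(Fin.cons (nn Z E) n : Fin (L.length + 1) → ℕ), ?_, ?_, ?_⟩
    · intro t
      refine Fin.cases ?_ ?_ t
      · exact le_rfl
      · intro t
        refine (hn1 t).trans ?_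
        unfold nn
        exact Finset.card_le_card (Finset.filter_subset_filter _ (Finset.filter_subset _ _))
    · have h1 : ∑ t : Fin (L.length + 1), (Fin.cons (nn Z E) n : Fin (L.length + 1) → ℕ) t =
          nn Z E + ∑ t, n t := by
        rw [Fin.sum_univ_succ]
        rfl
      have h2 : Z.card = nn Z E + (Z.filter fun z => ¬ ev z E = 0).card := by
        unfold nn
        exact (Finset.card_filter_add_card_filter_not (s := Z) (fun z => ev z E = 0)).symm
      calc ∑ t : Fin (E :: L).length, (Fin.cons (nn Z E) n : Fin (L.length + 1) → ℕ) t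
          = nn Z E + ∑ t, n t := h1
        _ ≤ Z.card := by rw [h2]; exact Nat.add_le_add_left hn2 _
    · have h1 : ∑ t : Fin (L.length + 1), (Fin.cons (nn Z E) n : Fin (L.length + 1) → ℕ) t =
          nn Z E + ∑ t, n t := by
        rw [Fin.sum_univ_succ]
        rfl
      have h2 : ∑ t : Fin (E :: L).length, nn Z ((E :: L).get t) = nn Z E + ∑ t, nn Z (L.get t) :=
        Fin.sum_univ_succ _
      have h3 : ∑ t : Fin L.length, nn Z (L.get t) ≤
          ∑ t : Fin L.length, nn (Z.filter fun z => ¬ ev z E = 0) (L.get t) +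
            (dX E * (L.map dY).sum + dY E * (L.map dX).sum) := by
        have h4 : ∑ t : Fin L.length, nn Z (L.get t) ≤ ∑ t : Fin L.length,
            (nn (Z.filter fun z => ¬ ev z E = 0) (L.get t) +
              (dX E * dY (L.get t) + dY E * dX (L.get t))) := by
          refine Finset.sum_le_sum fun t _ => ?_
          exact ASG_nn hBZT Z E (L.get t) hE (hirr _ (List.mem_cons_of_mem _ (List.get_mem L t)))
            (hpw.1 _ (List.get_mem L t))
        refine h4.trans (le_of_eq ?_)
        rw [Finset.sum_add_distrib, Finset.sum_add_distrib, ← Finset.mul_sum, ← Finset.mul_sum,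
          ASG_sum dY L, ASG_sum dX L]
      have h5 : ∑ t : Fin (E :: L).length, (Fin.cons (nn Z E) n : Fin (L.length + 1) → ℕ) t =
          nn Z E + ∑ t, n t := h1
      rw [h2, h5, List.map_cons, List.map_cons, List.sum_cons, List.sum_cons]
      have h6 : (dX E + (L.map dX).sum) * (dY E + (L.map dY).sum) = dX E * dY E +
          (dX E * (L.map dY).sum + dY E * (L.map dX).sum) + (L.map dX).sum * (L.map dY).sum := by ring
      rw [h6]
      omega

end

end Pool.Agent.HFN
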